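import Pool.Agent.helper41.CL.Spec

set_option autoImplicit false

namespace Pool.Agent.helper41.CL

open Finset

theorem WD_div (a r q : ℕ) (h1 : q * r ≤ a) (h2 : a < (q + 1) * r) : a / r = q :=
  Nat.div_eq_of_lt_le h1 h2

theorem WD : WD_stmt := by
  intro n k hk
  obtain ⟨r, rfl⟩ : ∃ r, k = r + 1 := ⟨k - 1, by omega⟩
  have hr : 2 ≤ r := by omega
  constructor
  · intro h1 h2
    have hp1 : partSize n r 1 = 2 := WD_div _ _ _ (by omega) (by omega)
    have hp2 : partSize n r 2 = 2 := WD_div _ _ _ (by omega) (by omega)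
    have hpr : ∏ i ∈ Icc 3 r, partSize n r i = 2 ^ (n - r - 2) := by
      have hsub : Icc 3 (n - r) ⊆ Icc 3 r := by
        intro i hi
        rw [mem_Icc] at hi ⊢
        omega
      rw [← prod_subset hsub ?_]
      · have h3 : ∀ i ∈ Icc 3 (n - r), partSize n r i = 2 := by
          intro i hi
          rw [mem_Icc] at hi
          exact WD_div _ _ _ (by omega) (by omega)
        rw [prod_congr rfl h3, prod_const, Nat.card_Icc]
        congr 1
      · intro i hi hni
        rw [mem_Icc] at hi hni
        exact WD_div _ _ _ (by omega) (by omega)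
    unfold target
    rw [Nat.add_sub_cancel, hp1, hp2, hpr]
    have : n - (r + 1) = (n - r - 2) + 1 := by omega
    rw [this, pow_succ]
    ring
  · intro h1
    have hn : n = 2 * r + 1 := by omega
    subst hn
    have hp1 : partSize (2 * r + 1) r 1 = 3 := WD_div _ _ _ (by omega) (by omega)
    have hp2 : partSize (2 * r + 1) r 2 = 2 := WD_div _ _ _ (by omega) (by omega)
    have hpr : ∏ i ∈ Icc 3 r, partSize (2 * r + 1) r i = 2 ^ (r - 2) := by
      have h3 : ∀ i ∈ Icc 3 r, partSize (2 * r + 1) r i = 2 := by
        intro i hi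
        rw [mem_Icc] at hi
        exact WD_div _ _ _ (by omega) (by omega)
      rw [prod_congr rfl h3, prod_const, Nat.card_Icc]
      congr 1
    unfold target
    rw [Nat.add_sub_cancel, hp1, hp2, hpr]
    rfl

end Pool.Agent.helper41.CL
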