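import Pool.Agent.helper41.CL.SpecB

set_option autoImplicit false

namespace Pool.Agent.helper41.CL

open Finset

theorem XQ_range (m : ℕ) :
    range (2 * (m + 1) + 7) = insert (2 * m + 8) (insert (2 * m + 7) (range (2 * m + 7))) := by
  ext x
  simp only [mem_range, mem_insert]
  omega

theorem XQ_E (m : ℕ) : EQ (m + 1) = insert {2 * m + 8, 2 * m + 7} (EQ m) := by
  show insert {2 * m + 7, 2 * m + 8} (EQ m) = _
  rw [pair_comm]

theorem XQ_zero : Gr (range 7) (EQ 0) ∧ #(EQ 0) = 4 ∧
    (∀ c ≤ 1, #(cov (range 7) (EQ 0) c) = 0) ∧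
    #(cov (range 7) (EQ 0) 2) = 1 ∧ #(cov (range 7) (EQ 0) 3) = 7 := by
  refine ⟨?_, ?_, ?_, ?_, ?_⟩
  · unfold Gr EQ
    decide
  · decide
  · intro c hc
    rcases (by omega : c = 0 ∨ c = 1) with rfl | rfl
    · decide +kernel
    · decide +kernel
  · decide +kernel
  · decide +kernel

theorem XQ (h1 : XK_stmt) : XQ_stmt := by
  intro m
  induction m with
  | zero =>
    obtain ⟨a1, a2, a3, a4, a5⟩ := XQ_zero
    refine ⟨a1, a2, a3, a4, ?_⟩
    show 2 * #(cov (range 7) (EQ 0) 3) = _
    rw [a5]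
    norm_num
  | succ m ih =>
    obtain ⟨hG, hc, h0, hA, hB⟩ := ih
    obtain ⟨k0, k1, k2⟩ := h1 ℕ (range (2 * m + 7)) (EQ m) (2 * m + 8) (2 * m + 7) (by omega)
      (by rw [mem_range]; omega) (by rw [mem_range]; omega) hG
    rw [← XQ_range, ← XQ_E] at k0 k1
    have k2' : ∀ c : ℕ, #(cov (range (2 * (m + 1) + 7)) (EQ (m + 1)) (c + 2)) =
        2 * #(cov (range (2 * m + 7)) (EQ m) (c + 1)) + #(cov (range (2 * m + 7)) (EQ m) c) := by
      intro c
      rw [XQ_range, XQ_E]
      exact k2 c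
    refine ⟨?_, ?_, ?_, ?_, ?_⟩
    · intro e he
      rw [XQ_E, mem_insert] at he
      rcases he with rfl | he
      · constructor
        · intro x hx
          rw [mem_insert, mem_singleton] at hx
          rw [mem_range]
          omega
        · exact card_pair (by omega)
      · obtain ⟨b1, b2⟩ := hG e he
        refine ⟨fun x hx => ?_, b2⟩
        have := mem_range.1 (b1 hx)
        rw [mem_range]
        omega
    · rw [XQ_E, card_insert_of_notMem, hc]
      intro h
      have := mem_range.1 ((hG _ h).1 (mem_insert_self (2 * m + 8) {2 * m + 7}))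
      omega
    · intro c hcm
      rcases Nat.lt_or_ge c 2 with h | h
      · rcases (by omega : c = 0 ∨ c = 1) with rfl | rfl
        · exact k0
        · rw [k1, h0 0 (by omega)]
      · obtain ⟨d, rfl⟩ : ∃ d, c = d + 2 := ⟨c - 2, by omega⟩
        rw [k2', h0 (d + 1) (by omega), h0 d (by omega)]
    · have : m + 1 + 2 = (m + 1) + 2 := rfl
      rw [k2' (m + 1), hA, h0 (m + 1) (by omega), pow_succ]
      ring
    · rw [show m + 1 + 3 = (m + 2) + 2 from rfl, k2' (m + 2), hA, pow_succ]
      nlinarith [hB]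

end Pool.Agent.helper41.CL
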