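import Pool.Agent.helper47.CL.SpecC

set_option autoImplicit false

namespace Pool.Agent.helper41.CL

open Finset

theorem YE (h1 : AZ_stmt) (h2 : SP_stmt) (h3 : WO_stmt) (h4 : YA_stmt) (h5 : YB_stmt) : YE_stmt := by
  intro α _ V E c p a b hG hc hE hV hpa hpb npa npb nab hall
  obtain ⟨d, rfl⟩ : ∃ d, c = d + 2 := ⟨c - 2, by omega⟩
  have hpV : p ∈ V := (hG _ hpa).1 (mem_insert_self _ _)
  have haV : a ∈ V := (hG _ hpa).1 (mem_insert_of_mem (mem_singleton_self _))
  have hbV : b ∈ V := (hG _ hpb).1 (mem_insert_of_mem (mem_singleton_self _))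
  have hne : ({p, a} : Finset α) ≠ {p, b} := by
    intro h
    have : a ∈ ({p, b} : Finset α) := by
      rw [← h]
      exact mem_insert_of_mem (mem_singleton_self _)
    rw [mem_insert, mem_singleton] at this
    rcases this with h6 | h6
    · exact npa h6.symm
    · exact nab h6
  have hE1 : #(E.filter fun e => p ∉ e) = d + 2 := by
    have h6 : E.filter (fun e => ¬ p ∉ e) = {{p, a}, {p, b}} := by
      ext e
      rw [mem_filter, mem_insert, mem_singleton, not_not]
      constructor
      · rintro ⟨he, hp⟩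
        exact hall e he hp
      · rintro (rfl | rfl)
        · exact ⟨hpa, mem_insert_self _ _⟩
        · exact ⟨hpb, mem_insert_self _ _⟩
    have h7 := card_filter_add_card_filter_not (s := E) (fun e => p ∉ e)
    rw [h6, card_pair hne] at h7
    omega
  have hG1 : Gr (V.erase p) (E.filter fun e => p ∉ e) := by
    intro e he
    rw [mem_filter] at he
    refine ⟨fun x hx => mem_erase.2 ⟨?_, (hG e he.1).1 hx⟩, (hG e he.1).2⟩
    rintro rfl
    exact he.2 hx
  have hG0 : Gr (V \ {p, a, b}) (E.filter fun e => p ∉ e ∧ a ∉ e ∧ b ∉ e) := by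
    intro e he
    rw [mem_filter] at he
    refine ⟨fun x hx => mem_sdiff.2 ⟨(hG e he.1).1 hx, ?_⟩, (hG e he.1).2⟩
    rw [mem_insert, mem_insert, mem_singleton]
    rintro (rfl | rfl | rfl)
    · exact he.2.1 hx
    · exact he.2.2.1 hx
    · exact he.2.2.2 hx
  have hV1 : #(V.erase p) = 2 * (d + 1) + 1 := by
    rw [card_erase_of_mem hpV, hV]
    omega
  have hV0 : #(V \ {p, a, b}) = 2 * d + 1 := by
    have hsub : ({p, a, b} : Finset α) ⊆ V := by
      intro x hx
      rw [mem_insert, mem_insert, mem_singleton] at hx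
      rcases hx with rfl | rfl | rfl
      · exact hpV
      · exact haV
      · exact hbV
    rw [card_sdiff_of_subset hsub, card_eq_three.2 ⟨p, a, b, npa, npb, nab, rfl⟩, hV]
    omega
  have hSP := h2 α V E p (d + 1) hpV
  have hWO := h3 α V E p a b d haV hbV npa npb nab hall
  rw [show d + 2 = d + 1 + 1 from rfl, hSP]
  have hWO' : #(cov (V \ {p, a, b}) (E.filter fun e => p ∉ e ∧ a ∉ e ∧ b ∉ e) d) ≤
      #(cov (V.erase p) E (d + 1 + 1)) := hWO
  constructor
  · intro h0
    have hA := h4 α (V.erase p) _ (d + 1) hG1 (by omega) (by omega) hV1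
    have hB := h1 α (V \ {p, a, b}) _ d hG0 (by omega) (by omega)
    rw [show d + 1 - 1 = d from rfl] at hA
    rw [show d + 1 + 1 - 1 = d + 1 from rfl, pow_succ]
    omega
  · rintro h0 ⟨y, hyV, hyp, hy⟩
    have hA := h5 α (V.erase p) _ (d + 1) y hG1 (by omega) (by omega) hV1
      (mem_erase.2 ⟨hyp, hyV⟩) (fun e he => hy e (mem_filter.1 he).1 (mem_filter.1 he).2)
    have hB := h4 α (V \ {p, a, b}) _ d hG0 (by omega) (by omega) hV0
    rw [show d + 1 - 2 = d - 1 from by omega] at hA
    rw [show d + 1 + 1 - 1 = (d - 1) + 2 from by omega, pow_add]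
    omega

end Pool.Agent.helper41.CL
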