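import Pool.Agent.helper47.CL.SpecC

set_option autoImplicit false

namespace Pool.Agent.helper41.CL

open Finset

theorem YU_div (a r q : ℕ) (h1 : q * r ≤ a) (h2 : a < (q + 1) * r) : a / r = q :=
  Nat.div_eq_of_lt_le h1 h2

theorem YU : YU_stmt := by
  intro k hk
  obtain ⟨r, rfl⟩ : ∃ r, k = r + 1 := ⟨k - 1, by omega⟩
  have hr : 2 ≤ r := by omega
  have hp1 : partSize (2 * (r + 1)) r 1 = 3 := YU_div _ _ _ (by omega) (by omega)
  have hp2 : partSize (2 * (r + 1)) r 2 = 3 := YU_div _ _ _ (by omega) (by omega)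
  have hpr : ∏ i ∈ Icc 3 r, partSize (2 * (r + 1)) r i = 2 ^ (r - 2) := by
    have h3 : ∀ i ∈ Icc 3 r, partSize (2 * (r + 1)) r i = 2 := by
      intro i hi
      rw [mem_Icc] at hi
      exact YU_div _ _ _ (by omega) (by omega)
    rw [prod_congr rfl h3, prod_const, Nat.card_Icc]
    congr 1
  unfold target
  rw [Nat.add_sub_cancel, hp1, hp2, hpr]
  have : r = (r - 2) + 2 := by omega
  conv_rhs => rw [this, pow_add]
  ring

end Pool.Agent.helper41.CL
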